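import Pool.Agent.Lib.MP_9cfc0a_nt.SF.Defs

set_option autoImplicit false

/-! Shared definitions of the campaign SG. -/

namespace Pool.Agent.SG

open MeasureTheory

/-- The mean excess of `F` over `x log q` on `[q, q^A]`. -/
noncomputable def exc (q : ℕ) (A : ℝ) (F : ℝ → ℝ) : ℝ :=
  2 / (A * Real.log q ^ 2) * ∫ x in Set.Ioc (q : ℝ) ((q : ℝ) ^ A),
    (1 - Real.log x / (A * Real.log q)) * (F x - x * Real.log q) / x ^ 2

end Pool.Agent.SG
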