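import Pool.Agent.Lib.MP_9cfc0a_nt.SG.Defs
import Pool.Agent.Lib.MP_9cfc0a_nt.Mg.G068
import Pool.Agent.Lib.MP_9cfc0a_nt.SF.H5

set_option autoImplicit false

/-! Task H5: the variance. -/

namespace Pool.Agent.SG

open Complex MeasureTheory
open Pool.Agent.SK Pool.Agent.SD Pool.Agent.SE Pool.Agent.SF Pool.Agent.SW MP9cfc0a.SK
open Pool.Agent.EM (psiC V integrable_psiC_sq_window integrable_V_window)
open Pool.Agent.SO (prim NN pt pz MM kw)

/-- The integral of the main term on the second part. -/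
private theorem SGH5_int (L Y a b : ℝ) (hY : Y ≠ 0) (ha : 0 < a) (hab : a ≤ b) :
    IntegrableOn (fun x : ℝ => (1 - Real.log x / Y) * (L / x)) (Set.Ioc a b) ∧
    ∫ x in Set.Ioc a b, (1 - Real.log x / Y) * (L / x) =
      L * (Real.log b - Real.log b ^ 2 / (2 * Y)) - L * (Real.log a - Real.log a ^ 2 / (2 * Y)) := by
  have hc : ContinuousOn (fun x : ℝ => (1 - Real.log x / Y) * (L / x)) (Set.Icc a b) := by
    have h0 : ∀ x ∈ Set.Icc a b, x ≠ 0 := fun x hx => (ha.trans_le hx.1).ne'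
    refine ContinuousOn.mul (continuousOn_const.sub ((Real.continuousOn_log.mono ?_).div_const _)) (continuousOn_const.div continuousOn_id h0)
    intro x hx
    exact h0 x hx
  have hd : ∀ x ∈ Set.uIcc a b, HasDerivAt (fun x : ℝ => L * (Real.log x - Real.log x ^ 2 / (2 * Y))) ((1 - Real.log x / Y) * (L / x)) x := by
    intro x hx
    rw [Set.uIcc_of_le hab] at hx
    have hx0 : x ≠ 0 := (ha.trans_le hx.1).ne'
    have h1 := Real.hasDerivAt_log hx0
    have h2 := (h1.sub ((h1.pow 2).div_const (2 * Y))).const_mul L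
    refine h2.congr_deriv ?_
    field_simp
    ring
  have hi : IntegrableOn (fun x : ℝ => (1 - Real.log x / Y) * (L / x)) (Set.Ioc a b) :=
    (hc.integrableOn_Icc).mono_set Set.Ioc_subset_Icc_self
  refine ⟨hi, ?_⟩
  rw [← intervalIntegral.integral_of_le hab]
  refine intervalIntegral.integral_eq_sub_of_hasDerivAt hd ?_
  exact (intervalIntegrable_iff_integrableOn_Ioc_of_le hab).2 hi

/-- The last inequality between real numbers. -/
private theorem SGH5_real (ε L a s φ En J T x C lN : ℝ) (hε : 0 < ε) (hε1 : ε ≤ 1 / 2) (hL : 1 ≤ L) (hφ : 0 < φ) (hl : 0 ≤ lN)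
    (ha0 : 0 < a) (ha1 : a ≤ 1) (hC : 2 * C ≤ ε / 16 * L) (hs : (1 - ε / 16) * φ ≤ s) (hE : En ≤ φ * J) (hJ : 0 ≤ J)
    (hJ1 : 2 * a / L * J ≤ L * (1 - a + T + x) + 2 * C) :
    φ * ((1 - T - x - ε) * (L * lN)) ≤
      (1 - ε / 16) * lN * (s * (2 * L - a * L - ε / 16 * L) - 2 * a / L * En) := by
  have hL0 : 0 < L := by linarith
  set e := ε / 16 with he
  have he0 : 0 < e := by positivity
  have he1 : e ≤ 1 / 32 := by rw [he]; linarith
  set E := 2 * a / L * J with hEdef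
  have hE0 : 0 ≤ E := by positivity
  have h1 : 2 * a / L * En ≤ φ * E := by
    calc 2 * a / L * En ≤ 2 * a / L * (φ * J) := mul_le_mul_of_nonneg_left hE (by positivity)
      _ = φ * E := by rw [hEdef]; ring
  have h2 : (1 - e) * φ * (2 * L - a * L - e * L) ≤ s * (2 * L - a * L - e * L) := by
    refine mul_le_mul_of_nonneg_right hs ?_
    nlinarith
  have h3 : φ * ((1 - e) * (2 * L - a * L - e * L) - E) ≤ s * (2 * L - a * L - e * L) - 2 * a / L * En := by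
    nlinarith
  have h4 : (1 - T - x - ε) * L ≤ (1 - e) * ((1 - e) * (2 * L - a * L - e * L) - E) := by
    have h5 : ε = 16 * e := by rw [he]; ring
    rw [h5]
    have h6 : 0 ≤ e * L := by positivity
    have h7 : 0 ≤ e * E := by positivity
    have h8 : 0 ≤ e * L * a := by positivity
    have h9 : 0 ≤ e * e * L := by positivity
    have h10 : e * L * a ≤ e * L := by nlinarith
    have h11 : 0 ≤ e * e * L * a := by positivity
    have h12 : e * (e * L) ≤ 1 / 32 * (e * L) := mul_le_mul_of_nonneg_right he1 h6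
    have h13 : e * (e * (e * L)) ≤ 1 / 32 * (e * (e * L)) := mul_le_mul_of_nonneg_right he1 (by positivity)
    nlinarith
  calc φ * ((1 - T - x - ε) * (L * lN)) = φ * lN * ((1 - T - x - ε) * L) := by ring
    _ ≤ φ * lN * ((1 - e) * ((1 - e) * (2 * L - a * L - e * L) - E)) :=
        mul_le_mul_of_nonneg_left h4 (by positivity)
    _ = (1 - e) * lN * (φ * ((1 - e) * (2 * L - a * L - e * L) - E)) := by ring
    _ ≤ _ := mul_le_mul_of_nonneg_left h3 (mul_nonneg (by linarith) hl)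

/-- H5a. The near energy in terms of the excess. PROOF. `Y = A L`, `exp Y = q^A`. Split `(1, q^A] = (1, q] ∪ (q, q^A]`; on the second part `F = (F - x L) + x L`,
`∫_(q, q^A] (1 - log x/Y) L/x dx = L (Y - L)²/(2 Y)`. Then `(2/Y) (L²/2 - L³/(3Y) + C L + (Y L/2) exc + L (Y-L)²/(2Y)) = L (1 - 1/A + 1/(3A²) + exc) + 2 C/A`. -/
theorem near_exc (q : ℕ) (hq : 3 ≤ q) (A C : ℝ) (hA : 1 ≤ A) (hC : 0 ≤ C) (F : ℝ → ℝ)
    (hI : IntegrableOn (fun x => F x / x ^ 2) (Set.Ioc (1 : ℝ) ((q : ℝ) ^ A)))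
    (h1 : ∫ x in Set.Ioc (1 : ℝ) q, (1 - Real.log x / (A * Real.log q)) * (F x / x ^ 2) ≤
      Real.log q ^ 2 / 2 - Real.log q ^ 3 / (3 * (A * Real.log q)) + C * Real.log q) :
    2 / (A * Real.log q) * ∫ x in Set.Ioc (1 : ℝ) ((q : ℝ) ^ A), (1 - Real.log x / (A * Real.log q)) * (F x / x ^ 2) ≤
      Real.log q * (1 - 1 / A + 1 / (3 * A ^ 2) + exc q A F) + 2 * C := by
  have hq3r : (3 : ℝ) ≤ q := by exact_mod_cast hq
  have hq0 : (0 : ℝ) < q := by linarith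
  have hL1 : 1 ≤ Real.log q := by
    rw [Real.le_log_iff_exp_le (by linarith)]
    exact Real.exp_one_lt_d9.le.trans (by linarith)
  have hlog : Real.log ((q : ℝ) ^ A) = A * Real.log q := Real.log_rpow hq0 A
  have hqA : (q : ℝ) ≤ (q : ℝ) ^ A := by
    calc (q : ℝ) = (q : ℝ) ^ (1 : ℝ) := (Real.rpow_one _).symm
      _ ≤ (q : ℝ) ^ A := Real.rpow_le_rpow_of_exponent_le (by linarith) hA
  have hY0 : 0 < A * Real.log q := by positivity
  have hg : IntegrableOn (fun x => (1 - Real.log x / (A * Real.log q)) * (F x / x ^ 2)) (Set.Ioc (1 : ℝ) ((q : ℝ) ^ A)) := by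
    have h := integrable_weight _ _ hI
    rwa [hlog] at h
  have hu : Set.Ioc (1 : ℝ) ((q : ℝ) ^ A) = Set.Ioc (1 : ℝ) q ∪ Set.Ioc (q : ℝ) ((q : ℝ) ^ A) :=
    (Set.Ioc_union_Ioc_eq_Ioc (by linarith) hqA).symm
  have hg1 : IntegrableOn (fun x => (1 - Real.log x / (A * Real.log q)) * (F x / x ^ 2)) (Set.Ioc (1 : ℝ) q) :=
    hg.mono_set (by rw [hu]; exact Set.subset_union_left)
  have hg2 : IntegrableOn (fun x => (1 - Real.log x / (A * Real.log q)) * (F x / x ^ 2)) (Set.Ioc (q : ℝ) ((q : ℝ) ^ A)) :=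
    hg.mono_set (by rw [hu]; exact Set.subset_union_right)
  have hsplit : ∫ x in Set.Ioc (1 : ℝ) ((q : ℝ) ^ A), (1 - Real.log x / (A * Real.log q)) * (F x / x ^ 2) =
      (∫ x in Set.Ioc (1 : ℝ) q, (1 - Real.log x / (A * Real.log q)) * (F x / x ^ 2)) +
      ∫ x in Set.Ioc (q : ℝ) ((q : ℝ) ^ A), (1 - Real.log x / (A * Real.log q)) * (F x / x ^ 2) := by
    rw [hu]
    exact setIntegral_union (Set.Ioc_disjoint_Ioc_of_le le_rfl) measurableSet_Ioc hg1 hg2
  obtain ⟨hi, he⟩ := SGH5_int (Real.log q) (A * Real.log q) q ((q : ℝ) ^ A) hY0.ne' hq0 hqA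
  have h2 : ∫ x in Set.Ioc (q : ℝ) ((q : ℝ) ^ A), (1 - Real.log x / (A * Real.log q)) * (F x / x ^ 2) =
      (∫ x in Set.Ioc (q : ℝ) ((q : ℝ) ^ A), (1 - Real.log x / (A * Real.log q)) * (F x - x * Real.log q) / x ^ 2) +
      ∫ x in Set.Ioc (q : ℝ) ((q : ℝ) ^ A), (1 - Real.log x / (A * Real.log q)) * (Real.log q / x) := by
    rw [← sub_eq_iff_eq_add, ← integral_sub hg2 hi]
    refine setIntegral_congr_fun measurableSet_Ioc fun x hx => ?_
    have hx0 : x ≠ 0 := (hq0.trans hx.1).ne'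
    field_simp
  rw [hsplit, h2, he, hlog]
  unfold exc
  set I1 := ∫ x in Set.Ioc (1 : ℝ) q, (1 - Real.log x / (A * Real.log q)) * (F x / x ^ 2)
  set I2 := ∫ x in Set.Ioc (q : ℝ) ((q : ℝ) ^ A), (1 - Real.log x / (A * Real.log q)) * (F x - x * Real.log q) / x ^ 2
  set L := Real.log q
  have hL0 : 0 < L := by linarith
  have hA0 : 0 < A := by linarith
  calc 2 / (A * L) * (I1 + (I2 + (L * (A * L - (A * L) ^ 2 / (2 * (A * L))) - L * (L - L ^ 2 / (2 * (A * L))))))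
      ≤ 2 / (A * L) * ((L ^ 2 / 2 - L ^ 3 / (3 * (A * L)) + C * L) + (I2 + (L * (A * L - (A * L) ^ 2 / (2 * (A * L))) - L * (L - L ^ 2 / (2 * (A * L)))))) := by
        refine mul_le_mul_of_nonneg_left ?_ (by positivity)
        linarith
    _ = L * (1 - 1 / A + 1 / (3 * A ^ 2) + 2 / (A * L ^ 2) * I2) + 2 * C / A := by
        field_simp
        ring
    _ ≤ L * (1 - 1 / A + 1 / (3 * A ^ 2) + 2 / (A * L ^ 2) * I2) + 2 * C := by
        have h3 : 2 * C / A ≤ 2 * C := div_le_self (by positivity) hA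
        linarith

/-- H5. PROOF. As `final_V` in SF/H5.lean. `e = ε/16`, `chars_allB B _ e` with `κ = e`, `Y = A L`. `φ ∫ V/x² ≥ ∑_S ∫ ‖psiC‖²/x² ≥ (1-e) lenN (|S| (2L - L²/Y - e L) - (2/Y) ∑_S En χ (exp Y))`,
`2L - L²/Y - eL ≥ 0`, `|S| ≥ (1-e) φ`, `∑_S En χ (exp Y) ≤ φ ∫_(1,exp Y] (1 - log x/Y) V/x²` (`FG_up`), `near_exc` with `V_initial`. With `b = 2 - 1/A - (2/(Y L)) ∫_(1,exp Y] .. V/x² ≤ 2`:
`b ≥ 1 - 1/(3A²) - exc - 2C/L`, and `(1-e)(b - 3e) ≥ b - 5 e` (`b ≤ 2`; both signs). -/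
theorem final_VB (B : ℝ) (hB : 1 ≤ B) (ε : ℝ) (hε : 0 < ε) (hε1 : ε ≤ 1 / 2) : ∃ N₀ : ℕ, 1 ≤ N₀ ∧ ∀ N : ℕ, N₀ ≤ N → ∃ q₀ : ℕ, 3 ≤ q₀ ∧
    ∀ q : ℕ, q₀ ≤ q → ∀ U : ℝ, Real.log q ≤ U → ∀ A : ℝ, 1 ≤ A → A ≤ B →
      (1 - 1 / (3 * A ^ 2) - exc q A (fun x => V x q) - ε) * (Real.log q * lenN q N U) ≤
        ∫ x in Set.Ioc (loN q N U) (upN q N U), V x q / x ^ 2 := by
  obtain ⟨N₀, hN₀, H⟩ := chars_allB B hB (ε / 16) (by positivity) (by linarith) (ε / 16) (by positivity)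
  obtain ⟨C, hC, hV⟩ := V_initial
  obtain ⟨q₃, hq₃⟩ : ∃ q₃ : ℕ, ∀ q : ℕ, q₃ ≤ q → 32 * C / ε ≤ Real.log q := by
    have h1 : Filter.Tendsto (fun q : ℕ => Real.log (q : ℝ)) Filter.atTop Filter.atTop :=
      Real.tendsto_log_atTop.comp tendsto_natCast_atTop_atTop
    exact (h1.eventually_ge_atTop _).exists_forall_of_atTop
  refine ⟨N₀, hN₀, fun N hN => ?_⟩
  obtain ⟨q₁, hq₁, G⟩ := H N hN
  refine ⟨max q₁ q₃, hq₁.trans (le_max_left _ _), fun q hq U hU A hA hAB => ?_⟩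
  have hqq1 : q₁ ≤ q := (le_max_left _ _).trans hq
  have hqq3 : q₃ ≤ q := (le_max_right _ _).trans hq
  have hq3 : 3 ≤ q := hq₁.trans hqq1
  have : NeZero q := ⟨by omega⟩
  have hq3r : (3 : ℝ) ≤ q := by exact_mod_cast hq3
  have hq0 : (0 : ℝ) < q := by linarith
  have hL1 : 1 ≤ Real.log q := by
    rw [Real.le_log_iff_exp_le (by linarith)]
    exact Real.exp_one_lt_d9.le.trans (by linarith)
  have hL0 : 0 < Real.log q := by linarith
  have hA0 : 0 < A := by linarith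
  have hCL : 2 * C ≤ ε / 16 * Real.log q := by
    have h4 := hq₃ q hqq3
    rw [div_le_iff₀ hε] at h4
    linarith
  obtain ⟨S, hSc, hS1, hS⟩ := G q hqq1
  obtain ⟨-, -, hlen⟩ := lenN_pos q N hq3 U hU
  have hlen0 : 0 ≤ lenN q N U := by linarith
  have hX : 1 ≤ loN q N U := le_max_left _ _
  have hφ : (0 : ℝ) < (q.totient : ℝ) := by
    exact_mod_cast Nat.totient_pos.2 (by omega)
  have hYL : Real.log q ≤ A * Real.log q := by nlinarith
  have hYB : A * Real.log q ≤ B * Real.log q := mul_le_mul_of_nonneg_right hAB hL0.le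
  have hexp : Real.exp (A * Real.log q) = (q : ℝ) ^ A := by
    rw [Real.rpow_def_of_pos hq0, mul_comm]
  have hlog : Real.log ((q : ℝ) ^ A) = A * Real.log q := Real.log_rpow hq0 A
  have iV := integrable_V_window q (loN q N U) (upN q N U) hX
  have iχ : ∀ χ ∈ S, IntegrableOn (fun x => ‖psiC χ x‖ ^ 2 / x ^ 2)
      (Set.Ioc (loN q N U) (upN q N U)) := fun χ _ =>
    integrable_psiC_sq_window χ (loN q N U) (upN q N U) hX
  have hup : ∑ χ ∈ S, ∫ x in Set.Ioc (loN q N U) (upN q N U), ‖psiC χ x‖ ^ 2 / x ^ 2 ≤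
      (q.totient : ℝ) * ∫ x in Set.Ioc (loN q N U) (upN q N U), V x q / x ^ 2 := by
    rw [← integral_finsetSum _ iχ, ← integral_const_mul]
    refine setIntegral_mono_on (integrable_finsetSum _ iχ) (iV.const_mul _) measurableSet_Ioc
      fun x hx => ?_
    have hx0 : 0 < x := by linarith [hx.1]
    have h2 := Pool.Agent.EM.variance_upper q x S hS1
    rw [← Finset.sum_div, ← mul_div_assoc]
    exact div_le_div_of_nonneg_right h2 (by positivity)
  have hlow : (1 - ε / 16) * lenN q N U *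
      ((S.card : ℝ) * (2 * Real.log q - 1 / A * Real.log q - ε / 16 * Real.log q) -
        2 * (1 / A) / Real.log q * ∑ χ ∈ S, En χ ((q : ℝ) ^ A)) ≤
      ∑ χ ∈ S, ∫ x in Set.Ioc (loN q N U) (upN q N U), ‖psiC χ x‖ ^ 2 / x ^ 2 := by
    refine le_trans (le_of_eq ?_) (Finset.sum_le_sum fun χ hχ => hS χ hχ U hU (A * Real.log q) hYL hYB)
    rw [← Finset.mul_sum]
    congr 1
    rw [Finset.mul_sum, ← nsmul_eq_mul, ← Finset.sum_const, ← Finset.sum_sub_distrib]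
    refine Finset.sum_congr rfl fun χ _ => ?_
    rw [hexp]
    field_simp
    ring
  have hEn := FG_up q S hS1 ((q : ℝ) ^ A)
  have hJ0 := FG_nn q ((q : ℝ) ^ A)
  have hne := near_exc q hq3 A C hA hC (fun x => V x q) (integrable_V_window q 1 _ le_rfl)
    (hV q hq3 (A * Real.log q) hYL)
  rw [hlog] at hEn hJ0
  have hJ1 : 2 * (1 / A) / Real.log q * ∫ x in Set.Ioc (1 : ℝ) ((q : ℝ) ^ A), (1 - Real.log x / (A * Real.log q)) * (V x q / x ^ 2) ≤
      Real.log q * (1 - 1 / A + 1 / (3 * A ^ 2) + exc q A (fun x => V x q)) + 2 * C := by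
    refine le_trans (le_of_eq ?_) hne
    field_simp
  have h := SGH5_real ε (Real.log q) (1 / A) (S.card : ℝ) (q.totient : ℝ) (∑ χ ∈ S, En χ ((q : ℝ) ^ A)) _
    (1 / (3 * A ^ 2)) (exc q A (fun x => V x q)) C (lenN q N U) hε hε1 hL1 hφ hlen0 (by positivity)
    (by rw [div_le_one hA0]; exact hA) hCL hSc hEn hJ0 hJ1
  exact le_of_mul_le_mul_left ((h.trans hlow).trans hup) hφ

end Pool.Agent.SG
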