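import Pool.Agent.Lib.MP_9cfc0a_nt.SG.H5
import Pool.Agent.Lib.MP_9cfc0a_nt.SF.H6

set_option autoImplicit false

/-! Task H6: the race variances. -/

namespace Pool.Agent.SG

open Complex MeasureTheory
open Pool.Agent.SK Pool.Agent.SD Pool.Agent.SE Pool.Agent.SF Pool.Agent.SW MP9cfc0a.SK
open Pool.Agent.EM (psiC V)
open Pool.Agent.SO (prim NN pt pz MM kw)

/-- The near energy of the race variance, in the form used by `near_exc`. -/
private theorem H6_near : ∃ C : ℝ, 0 ≤ C ∧ ∀ (q : ℕ) [NeZero q], 3 ≤ q → ∀ c : ℕ, Nat.Coprime c q → ∀ A : ℝ, 1 ≤ A →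
    ∫ x in Set.Ioc (1 : ℝ) q, (1 - Real.log x / (A * Real.log q)) * (Vc x q c / x ^ 2) ≤
      Real.log q ^ 2 / 2 - Real.log q ^ 3 / (3 * (A * Real.log q)) + C * Real.log q := by
  obtain ⟨C, hC0, hC⟩ := Vc_near
  refine ⟨C, hC0, fun q _ hq c hc A hA => ?_⟩
  have h3 : (3 : ℝ) ≤ q := by exact_mod_cast hq
  have hL0 : 0 < Real.log q := Real.log_pos (by linarith)
  have hY0 : 0 < A * Real.log q := mul_pos (by linarith) hL0
  have hLY : Real.log q ≤ A * Real.log q := by nlinarith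
  have h2 := hC q hq c hc q (by linarith) le_rfl (A * Real.log q) hLY
  have e1 : (A * Real.log q) * ∫ x in Set.Ioc (1 : ℝ) q, (1 - Real.log x / (A * Real.log q)) * (Vc x q c / x ^ 2) =
      ∫ x in Set.Ioc (1 : ℝ) q, (A * Real.log q - Real.log x) * (Vc x q c / x ^ 2) := by
    rw [← integral_const_mul]
    refine setIntegral_congr_fun measurableSet_Ioc fun x _ => ?_
    have h4 : (A * Real.log q) * (1 - Real.log x / (A * Real.log q)) = A * Real.log q - Real.log x := by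
      rw [mul_sub, mul_one, mul_div_cancel₀ _ hY0.ne']
    show (A * Real.log q) * ((1 - Real.log x / (A * Real.log q)) * (Vc x q c / x ^ 2)) =
      (A * Real.log q - Real.log x) * (Vc x q c / x ^ 2)
    rw [← mul_assoc, h4]
  rw [← e1] at h2
  refine le_of_mul_le_mul_left (h2.trans (le_of_eq ?_)) hY0
  generalize Real.log q = L at hY0 hL0
  have hA0 : A ≠ 0 := by linarith
  have hL1 : L ≠ 0 := hL0.ne'
  field_simp

/-- H6. PROOF. As `final_Vc` in SF/H6.lean and `final_VB` in SG/H5.lean. `e = ε/32`, `chars_allB B _ e` with `κ = e`, `Y = A L`. `φ ∫ Vc/x² = ∑_χ om χ ∫ ‖psiC‖²/x² ≥ ∑_S om χ (1-e) lenN (2L - L²/Y - 2 En/Y - e L)`,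
`∑_S om ≥ φ - 2 #Sᶜ ≥ (1 - 2e) φ`, `∑_S om χ En χ (exp Y) ≤ φ ∫_(1,exp Y] (1 - log x/Y) Vc/x²` (`Vc_eq`, as in `Vc_En`), `near_exc` with `Vc_near` (SW/NE.lean, `z = q`, divided by `Y`). -/
theorem final_VcB (B : ℝ) (hB : 1 ≤ B) (ε : ℝ) (hε : 0 < ε) (hε1 : ε ≤ 1 / 2) : ∃ N₀ : ℕ, 1 ≤ N₀ ∧ ∀ N : ℕ, N₀ ≤ N → ∃ q₀ : ℕ, 3 ≤ q₀ ∧
    ∀ (q : ℕ) [NeZero q], q₀ ≤ q → ∀ c : ℕ, Nat.Coprime c q → ¬ c % q = 1 % q → ∀ U : ℝ, Real.log q ≤ U → ∀ A : ℝ, 1 ≤ A → A ≤ B →
      (1 - 1 / (3 * A ^ 2) - exc q A (fun x => Vc x q c) - ε) * (Real.log q * lenN q N U) ≤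
        ∫ x in Set.Ioc (loN q N U) (upN q N U), Vc x q c / x ^ 2 := by
  classical
  obtain ⟨C, hC0, hC⟩ := H6_near
  set e : ℝ := ε / 32 with he
  have he0 : 0 < e := by positivity
  have he1 : e ≤ 1 / 64 := by linarith
  obtain ⟨N₀, hN₀, H⟩ := chars_allB B hB e he0 (by linarith) e he0
  refine ⟨N₀, hN₀, fun N hN => ?_⟩
  obtain ⟨q₁, hq₁, H1⟩ := H N hN
  refine ⟨max q₁ (⌈Real.exp (C / e)⌉₊), hq₁.trans (le_max_left _ _), fun q _ hq c hc hc1 U hU A hA hAB => ?_⟩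
  have hqq1 : q₁ ≤ q := (le_max_left _ _).trans hq
  have hqq2 : Real.exp (C / e) ≤ (q : ℝ) := by
    refine (Nat.le_ceil _).trans ?_
    exact_mod_cast (le_max_right _ _).trans hq
  obtain ⟨S, hS1, hS2, hS3⟩ := H1 q hqq1
  have hq3 : 3 ≤ q := hq₁.trans hqq1
  have h3 : (3 : ℝ) ≤ q := by exact_mod_cast hq3
  have hφ : (0 : ℝ) < (q.totient : ℝ) := by
    exact_mod_cast Nat.totient_pos.mpr (by omega)
  have hL0 : 0 < Real.log q := Real.log_pos (by linarith)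
  have hA0 : 0 < A := by linarith
  have hCe : C ≤ e * Real.log q := by
    have h4 : C / e ≤ Real.log q := by
      rw [Real.le_log_iff_exp_le (by linarith)]
      exact hqq2
    rw [div_le_iff₀ he0] at h4
    linarith
  obtain ⟨ha1, hab, hlen⟩ := lenN_pos q N hq3 U hU
  have hLY : Real.log q ≤ A * Real.log q := by nlinarith
  have hYB : A * Real.log q ≤ B * Real.log q := mul_le_mul_of_nonneg_right hAB hL0.le
  have hqA : Real.exp (A * Real.log q) = (q : ℝ) ^ A := by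
    rw [Real.rpow_def_of_pos (by linarith), mul_comm]
  have hNear := near_exc q hq3 A C hA hC0 (fun x => Vc x q c)
    (integrable_Vc_window q c hc 1 _ le_rfl) (hC q hq3 c hc A hA)
  have hEn := H6_up q c hc S (Real.exp (A * Real.log q))
  rw [Real.log_exp] at hEn
  have hS4 := fun χ hχ => hS3 χ hχ U hU (A * Real.log q) hLY hYB
  rw [hqA] at hEn
  rw [hqA] at hS4
  have hJ0 : 0 ≤ ∫ x in Set.Ioc (1 : ℝ) ((q : ℝ) ^ A), (1 - Real.log x / (A * Real.log q)) * (Vc x q c / x ^ 2) := by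
    refine setIntegral_nonneg measurableSet_Ioc fun x hx => ?_
    have hx0 : 0 < x := by linarith [hx.1]
    have h5 : Real.log x ≤ A * Real.log q := by
      rw [← Real.log_rpow (by linarith)]
      exact Real.log_le_log hx0 hx.2
    have h6 : Real.log x / (A * Real.log q) ≤ 1 := by
      rw [div_le_one (mul_pos hA0 hL0)]
      exact h5
    have h7 : 0 ≤ Vc x q c := by
      have h8 := Vc_eq q c hc x
      have h9 : 0 ≤ (q.totient : ℝ) * Vc x q c := by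
        rw [← h8]
        exact Finset.sum_nonneg fun χ _ => mul_nonneg (om_nonneg c χ) (by positivity)
      exact nonneg_of_mul_nonneg_right h9 hφ
    exact mul_nonneg (by linarith) (div_nonneg h7 (by positivity))
  set J := ∫ x in Set.Ioc (1 : ℝ) ((q : ℝ) ^ A), (1 - Real.log x / (A * Real.log q)) * (Vc x q c / x ^ 2) with hJ
  set X := exc q A (fun x => Vc x q c) with hX
  set a := loN q N U with ha
  set b := upN q N U with hb
  set Λ := lenN q N U with hΛ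
  set L := Real.log q with hL
  have hΛ0 : 0 ≤ Λ := hL0.le.trans hlen
  have hY0 : 0 < A * L := mul_pos hA0 hL0
  have hI : ∀ χ : DirichletCharacter ℂ q, IntegrableOn (fun x => om c χ * (‖psiC χ x‖ ^ 2 / x ^ 2)) (Set.Ioc a b) :=
    fun χ => (Pool.Agent.EM.integrable_psiC_sq_window χ a b ha1).const_mul _
  have h1 : (q.totient : ℝ) * ∫ x in Set.Ioc a b, Vc x q c / x ^ 2 =
      ∑ χ : DirichletCharacter ℂ q, om c χ * ∫ x in Set.Ioc a b, ‖psiC χ x‖ ^ 2 / x ^ 2 := by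
    rw [← integral_const_mul]
    have e1 : ∀ x : ℝ, (q.totient : ℝ) * (Vc x q c / x ^ 2) = ∑ χ : DirichletCharacter ℂ q, om c χ * (‖psiC χ x‖ ^ 2 / x ^ 2) := by
      intro x
      rw [← mul_div_assoc, ← Vc_eq q c hc x, Finset.sum_div]
      exact Finset.sum_congr rfl fun χ _ => by ring
    simp_rw [e1]
    rw [integral_finsetSum _ fun χ _ => hI χ]
    exact Finset.sum_congr rfl fun χ _ => integral_const_mul _ _
  have hnn : ∀ χ : DirichletCharacter ℂ q, 0 ≤ ∫ x in Set.Ioc a b, ‖psiC χ x‖ ^ 2 / x ^ 2 := fun χ =>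
    setIntegral_nonneg measurableSet_Ioc fun x _ => by positivity
  have h2 : ∑ χ ∈ S, om c χ * ((1 - e) * Λ * (2 * L - L ^ 2 / (A * L) - 2 * En χ ((q : ℝ) ^ A) / (A * L) - e * L)) ≤
      (q.totient : ℝ) * ∫ x in Set.Ioc a b, Vc x q c / x ^ 2 := by
    rw [h1]
    calc ∑ χ ∈ S, om c χ * ((1 - e) * Λ * (2 * L - L ^ 2 / (A * L) - 2 * En χ ((q : ℝ) ^ A) / (A * L) - e * L)) ≤
          ∑ χ ∈ S, om c χ * ∫ x in Set.Ioc a b, ‖psiC χ x‖ ^ 2 / x ^ 2 :=
          Finset.sum_le_sum fun χ hχ => mul_le_mul_of_nonneg_left (hS4 χ hχ) (om_nonneg c χ)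
      _ ≤ _ := Finset.sum_le_univ_sum_of_nonneg fun χ => mul_nonneg (om_nonneg c χ) (hnn χ)
  have e2 : ∑ χ ∈ S, om c χ * ((1 - e) * Λ * (2 * L - L ^ 2 / (A * L) - 2 * En χ ((q : ℝ) ^ A) / (A * L) - e * L)) =
      (1 - e) * Λ * ((2 * L - L ^ 2 / (A * L) - e * L) * (∑ χ ∈ S, om c χ) -
        2 / (A * L) * ∑ χ ∈ S, om c χ * En χ ((q : ℝ) ^ A)) := by
    rw [mul_sub, Finset.mul_sum, Finset.mul_sum, Finset.mul_sum, Finset.mul_sum, ← Finset.sum_sub_distrib]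
    refine Finset.sum_congr rfl fun χ _ => ?_
    ring
  have hcard : ((Finset.univ : Finset (DirichletCharacter ℂ q)).card : ℝ) = (q.totient : ℝ) := by
    rw [Finset.card_univ, ← Nat.card_eq_fintype_card, DirichletCharacter.card_eq_totient_of_hasEnoughRootsOfUnity]
  have h4 : (1 - 2 * e) * (q.totient : ℝ) ≤ ∑ χ ∈ S, om c χ := by
    have h4 := om_sum q c hc hc1
    have h5 := Finset.sum_add_sum_compl S (fun χ => om c χ)
    have h6 : ∑ χ ∈ Sᶜ, om c χ ≤ 2 * (Sᶜ.card : ℝ) := by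
      calc ∑ χ ∈ Sᶜ, om c χ ≤ ∑ _χ ∈ Sᶜ, (2 : ℝ) := Finset.sum_le_sum fun χ _ => om_le c χ
        _ = 2 * (Sᶜ.card : ℝ) := by rw [Finset.sum_const, nsmul_eq_mul, mul_comm]
    have h7 : (Sᶜ.card : ℝ) = (q.totient : ℝ) - (S.card : ℝ) := by
      rw [Finset.card_compl, Nat.cast_sub (Finset.card_le_univ S), ← Finset.card_univ, hcard]
    rw [h4] at h5
    linarith
  have hLA : L ^ 2 / (A * L) = L * (1 / A) := by
    field_simp
  have h1A : 0 < 1 / A := by positivity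
  have h1A1 : 1 / A ≤ 1 := by
    rw [div_le_one hA0]
    exact hA
  rw [hLA] at e2
  rw [hLA] at h2
  generalize 1 / A = t at h1A h1A1 e2 h2 hNear hLA
  have hpos : 0 ≤ 2 * L - L * t - e * L := by nlinarith
  have h5 : (2 * L - L * t - e * L) * ((1 - 2 * e) * (q.totient : ℝ)) ≤ (2 * L - L * t - e * L) * ∑ χ ∈ S, om c χ :=
    mul_le_mul_of_nonneg_left h4 hpos
  have h6 : 2 / (A * L) * ∑ χ ∈ S, om c χ * En χ ((q : ℝ) ^ A) ≤ (q.totient : ℝ) * (2 / (A * L) * J) := by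
    calc 2 / (A * L) * ∑ χ ∈ S, om c χ * En χ ((q : ℝ) ^ A) ≤ 2 / (A * L) * ((q.totient : ℝ) * J) :=
          mul_le_mul_of_nonneg_left hEn (by positivity)
      _ = _ := by ring
  have hK0 : 0 ≤ 2 / (A * L) * J := mul_nonneg (by positivity) hJ0
  generalize 2 / (A * L) * J = K at hK0 h6 hNear
  have h7 : (q.totient : ℝ) * ((2 - t - 5 * e) * L - K) ≤
      (2 * L - L * t - e * L) * (∑ χ ∈ S, om c χ) - 2 / (A * L) * ∑ χ ∈ S, om c χ * En χ ((q : ℝ) ^ A) := by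
    have h8 : (q.totient : ℝ) * ((2 - t - 5 * e) * L - K) ≤
        (2 * L - L * t - e * L) * ((1 - 2 * e) * (q.totient : ℝ)) - (q.totient : ℝ) * K := by
      have h9 : (2 * L - L * t - e * L) * ((1 - 2 * e) * (q.totient : ℝ)) - (q.totient : ℝ) * K =
          (q.totient : ℝ) * ((2 - t - 5 * e) * L - K) + (2 * e * t + 2 * e ^ 2) * (q.totient : ℝ) * L := by ring
      rw [h9]
      have h10 : 0 ≤ (2 * e * t + 2 * e ^ 2) * (q.totient : ℝ) * L := by positivity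
      linarith
    linarith
  have h8 : (1 - e) * Λ * ((q.totient : ℝ) * ((2 - t - 5 * e) * L - K)) ≤
      (q.totient : ℝ) * ∫ x in Set.Ioc a b, Vc x q c / x ^ 2 := by
    refine le_trans ?_ h2
    rw [e2]
    exact mul_le_mul_of_nonneg_left h7 (mul_nonneg (by linarith) hΛ0)
  have h9 : (q.totient : ℝ) * ((1 - 1 / (3 * A ^ 2) - X - ε) * (L * Λ)) ≤
      (q.totient : ℝ) * ∫ x in Set.Ioc a b, Vc x q c / x ^ 2 := by
    refine le_trans ?_ h8
    have h11 : (1 - 1 / (3 * A ^ 2) - X - ε) * L ≤ (1 - e) * ((2 - t - 5 * e) * L - K) := by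
      have h12 : (1 - 1 / (3 * A ^ 2) - X) * L ≤ (2 - t) * L - K + 2 * C := by linarith
      have h13 : (2 - t) * L - K ≤ 2 * L := by nlinarith
      have h14 : e * ((2 - t) * L - K) ≤ e * (2 * L) := mul_le_mul_of_nonneg_left h13 he0.le
      have h15 : 0 ≤ e ^ 2 * L := by positivity
      have h16 : 0 ≤ e * L := by positivity
      have h17 : ε = 32 * e := by rw [he]; ring
      rw [h17]
      nlinarith
    have h18 : (1 - 1 / (3 * A ^ 2) - X - ε) * (L * Λ) ≤ (1 - e) * Λ * ((2 - t - 5 * e) * L - K) := by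
      calc (1 - 1 / (3 * A ^ 2) - X - ε) * (L * Λ) = ((1 - 1 / (3 * A ^ 2) - X - ε) * L) * Λ := by ring
        _ ≤ ((1 - e) * ((2 - t - 5 * e) * L - K)) * Λ := mul_le_mul_of_nonneg_right h11 hΛ0
        _ = _ := by ring
    calc (q.totient : ℝ) * ((1 - 1 / (3 * A ^ 2) - X - ε) * (L * Λ)) ≤
          (q.totient : ℝ) * ((1 - e) * Λ * ((2 - t - 5 * e) * L - K)) := mul_le_mul_of_nonneg_left h18 hφ.le
      _ = _ := by ring
  exact le_of_mul_le_mul_left h9 hφ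

end Pool.Agent.SG
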